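import Pool.Agent.Helper548.Knot.Core
import Pool.Agent.Helper548.KnotD.D6

/-!
# Knots in linear spatial embeddings of complete graphs: `n(k)` is polynomially bounded

Version with tame knots as subsets of `ℝ³` and ambient isotopy.
-/

namespace Pool.Agent.Results.MP_188a32_co.AmbientIsotopy

open Knot548

/-- The closed polygon with vertex list `L`, as a subset of space. -/
def polygon (L : List R3) : Set R3 := {q | ∃ e ∈ cedges L, q ∈ segment ℝ e.1 e.2}

/-- Ambient isotopy: `A` is carried to `B` by a continuous family of homeomorphisms of `ℝ³` starting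
with the identity. -/
def AmbientIsotopic (A B : Set R3) : Prop :=
  ∃ H : unitInterval → R3 ≃ₜ R3, Continuous (fun q : unitInterval × R3 => H q.1 q.2) ∧
    (∀ x, H 0 x = x) ∧ H 1 '' A = B

/-- A tame knot: a subset of `ℝ³` that is ambient isotopic to a simple closed polygon. -/
def IsTameKnot (K : Set R3) : Prop :=
  ∃ L : List R3, 3 ≤ L.length ∧ Simple L ∧ AmbientIsotopic K (polygon L)

/-- The crossing number of `K`: the least number of crossings of a regular projection of a simple
closed polygon ambient isotopic to `K`. -/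
noncomputable def crossingNumber (K : Set R3) : ℕ :=
  sInf {k | ∃ L : List R3, IsDiagram L k ∧ AmbientIsotopic K (polygon L)}

/-- Sense (ii): some cycle of the complete graph is a polygon that is ambient isotopic to `K`. -/
def ContainsIsotopic {n : ℕ} (f : Fin n → R3) (K : Set R3) : Prop :=
  ∃ c : List (Fin n), 3 ≤ c.length ∧ c.Nodup ∧ AmbientIsotopic (polygon (c.map f)) K

/-- Sense (i): some cycle of the complete graph is a polygon that is carried to `K` by a
homeomorphism of `ℝ³`. -/
def ContainsHomeomorphic {n : ℕ} (f : Fin n → R3) (K : Set R3) : Prop :=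
  ∃ c : List (Fin n), 3 ≤ c.length ∧ c.Nodup ∧ ∃ g : R3 ≃ₜ R3, g '' polygon (c.map f) = K

/-- `n(K)` in sense (ii). -/
noncomputable def nKnotIsotopic (K : Set R3) : ℕ :=
  sInf {n | ∀ f : Fin n → R3, LinEmb f → ContainsIsotopic f K}

/-- `n(K)` in sense (i). -/
noncomputable def nKnotHomeomorphic (K : Set R3) : ℕ :=
  sInf {n | ∀ f : Fin n → R3, LinEmb f → ContainsHomeomorphic f K}

/-- the values `n(K)` for the knots `K` with crossing number `k`, sense (ii) -/
def valuesIsotopic (k : ℕ) : Set ℕ :=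
  {m | ∃ K : Set R3, IsTameKnot K ∧ crossingNumber K = k ∧ nKnotIsotopic K = m}

/-- the values `n(K)` for the knots `K` with crossing number `k`, sense (i) -/
def valuesHomeomorphic (k : ℕ) : Set ℕ :=
  {m | ∃ K : Set R3, IsTameKnot K ∧ crossingNumber K = k ∧ nKnotHomeomorphic K = m}

theorem main : ∃ C d : ℕ, ∀ k : ℕ, 3 ≤ k → ∀ K : Set R3, crossingNumber K = k →
    ∀ n : ℕ, C * k ^ d ≤ n → ∀ f : Fin n → R3, LinEmb f → ContainsIsotopic f K := by
  obtain ⟨C, d, h⟩ := core
  refine ⟨C, d, ?_⟩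
  intro k hk K hc n hn f hf
  have hne : {k | ∃ L : List R3, IsDiagram L k ∧ AmbientIsotopic K (polygon L)}.Nonempty := by
    rw [Set.nonempty_iff_ne_empty]
    intro he
    unfold crossingNumber at hc
    rw [he, Nat.sInf_empty] at hc
    omega
  have hmem := Nat.sInf_mem hne
  change crossingNumber K ∈ _ at hmem
  rw [hc] at hmem
  obtain ⟨L, hL, hKL⟩ := hmem
  obtain ⟨c, h1, h2, h3⟩ := h k (by omega) L hL n hn f hf
  have h4 : AmbIso (polygon (c.map f)) (polygon L) := ambIso_of_eqv _ _ h3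
  exact ⟨c, h1, h2, AmbIso.trans h4 (AmbIso.symm hKL)⟩

theorem homeomorphic_of_isotopic {n : ℕ} {f : Fin n → R3} {K : Set R3} (h : ContainsIsotopic f K) :
    ContainsHomeomorphic f K := by
  obtain ⟨c, h1, h2, H, -, -, h3⟩ := h
  exact ⟨c, h1, h2, H 1, h3⟩

/-- There are constants `C`, `d` such that for every `k ≥ 3`: every tame knot `K` with crossing number
`k` is contained, in sense (ii) and in sense (i), in every linear spatial embedding of `K_n` for every
`n ≥ C k ^ d`; hence `n(k) ≤ C k ^ d` in both senses. -/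
theorem result : ∃ C d : ℕ, ∀ k : ℕ, 3 ≤ k →
    (∀ K : Set R3, IsTameKnot K → crossingNumber K = k → ∀ n : ℕ, C * k ^ d ≤ n →
      ∀ f : Fin n → R3, LinEmb f → ContainsIsotopic f K ∧ ContainsHomeomorphic f K) ∧
    (∀ m ∈ valuesIsotopic k, m ≤ C * k ^ d) ∧ sSup (valuesIsotopic k) ≤ C * k ^ d ∧
    (∀ m ∈ valuesHomeomorphic k, m ≤ C * k ^ d) ∧ sSup (valuesHomeomorphic k) ≤ C * k ^ d := by
  obtain ⟨C, d, h⟩ := main
  refine ⟨C, d, ?_⟩
  intro k hk
  have h1 : ∀ m ∈ valuesIsotopic k, m ≤ C * k ^ d := by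
    rintro m ⟨K, -, hc, rfl⟩
    exact Nat.sInf_le (fun f hf => h k hk K hc _ le_rfl f hf)
  have h2 : ∀ m ∈ valuesHomeomorphic k, m ≤ C * k ^ d := by
    rintro m ⟨K, -, hc, rfl⟩
    exact Nat.sInf_le (fun f hf => homeomorphic_of_isotopic (h k hk K hc _ le_rfl f hf))
  have h3 : ∀ S : Set ℕ, (∀ m ∈ S, m ≤ C * k ^ d) → sSup S ≤ C * k ^ d := by
    intro S hS
    rcases Set.eq_empty_or_nonempty S with he | hne
    · rw [he]; simp
    · exact csSup_le hne hS
  refine ⟨?_, h1, h3 _ h1, h2, h3 _ h2⟩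
  intro K _ hc n hn f hf
  have h4 := h k hk K hc n hn f hf
  exact ⟨h4, homeomorphic_of_isotopic h4⟩

end Pool.Agent.Results.MP_188a32_co.AmbientIsotopy
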