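import Pool.Agent.Helper548.Knot.Core

/-!
# Knots in linear spatial embeddings of complete graphs: `n(k)` is polynomially bounded

Knots are simple closed polygons in `ℝ³` up to polygonal isotopy (`Knot548.Eqv`, no reflections), the
crossing number is the least number of crossings of a regular projection of an equivalent polygon.
-/

namespace Pool.Agent.Results.MP_188a32_co.PolyIsotopy

open Knot548

/-- The linear spatial embedding `f` of the complete graph on `Fin n` contains the knot `K`: the
polygon of some cycle of the complete graph is equivalent (isotopic) to `K`. -/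
def Contains {n : ℕ} (f : Fin n → R3) (K : List R3) : Prop :=
  ∃ c : List (Fin n), 3 ≤ c.length ∧ c.Nodup ∧ Eqv (c.map f) K

/-- The crossing number of the knot `K`: the least number of crossings of a regular projection of a
polygon equivalent to `K`. -/
noncomputable def crossingNumber (K : List R3) : ℕ :=
  sInf {k | ∃ L : List R3, Eqv K L ∧ IsDiagram L k}

/-- `n(K)`: the least `n` such that every linear spatial embedding of `K_n` contains `K`. -/
noncomputable def nKnot (K : List R3) : ℕ :=
  sInf {n | ∀ f : Fin n → R3, LinEmb f → Contains f K}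

/-- `n(k)`: the maximum of `n(K)` over the knots `K` with crossing number `k`. -/
noncomputable def nCross (k : ℕ) : ℕ :=
  sSup {m | ∃ K : List R3, IsKnot K ∧ crossingNumber K = k ∧ nKnot K = m}

theorem main : ∃ C d : ℕ, ∀ k : ℕ, 3 ≤ k → ∀ K : List R3, IsKnot K → crossingNumber K = k →
    ∀ n : ℕ, C * k ^ d ≤ n → ∀ f : Fin n → R3, LinEmb f → Contains f K := by
  obtain ⟨C, d, h⟩ := core
  refine ⟨C, d, ?_⟩
  intro k hk K hK hc n hn f hf
  have hne : {k | ∃ L : List R3, Eqv K L ∧ IsDiagram L k}.Nonempty := by
    rw [Set.nonempty_iff_ne_empty]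
    intro he
    unfold crossingNumber at hc
    rw [he, Nat.sInf_empty] at hc
    omega
  have hmem := Nat.sInf_mem hne
  change crossingNumber K ∈ _ at hmem
  rw [hc] at hmem
  obtain ⟨L, hKL, hL⟩ := hmem
  obtain ⟨c, h1, h2, h3⟩ := h k (by omega) L hL n hn f hf
  exact ⟨c, h1, h2, Relation.EqvGen.trans _ _ _ h3 (Relation.EqvGen.symm _ _ hKL)⟩

/-- There are constants `C`, `d` such that for every `k ≥ 3`: every knot `K` with crossing number `k`
is contained in every linear spatial embedding of `K_n`, for every `n ≥ C k ^ d`; in particular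
`n(K) ≤ C k ^ d` for each such knot and `n(k) ≤ C k ^ d`. -/
theorem result : ∃ C d : ℕ, ∀ k : ℕ, 3 ≤ k →
    (∀ K : List R3, IsKnot K → crossingNumber K = k →
      (∀ n : ℕ, C * k ^ d ≤ n → ∀ f : Fin n → R3, LinEmb f → Contains f K) ∧ nKnot K ≤ C * k ^ d) ∧
    BddAbove {m | ∃ K : List R3, IsKnot K ∧ crossingNumber K = k ∧ nKnot K = m} ∧
    nCross k ≤ C * k ^ d := by
  obtain ⟨C, d, h⟩ := main
  refine ⟨C, d, ?_⟩
  intro k hk
  have hK : ∀ K : List R3, IsKnot K → crossingNumber K = k → nKnot K ≤ C * k ^ d := by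
    intro K hK hc
    exact Nat.sInf_le (fun f hf => h k hk K hK hc _ le_rfl f hf)
  refine ⟨fun K hK' hc => ⟨h k hk K hK' hc, hK K hK' hc⟩, ⟨C * k ^ d, ?_⟩, ?_⟩
  · rintro m ⟨K, hK', hc, rfl⟩
    exact hK K hK' hc
  · unfold nCross
    rcases Set.eq_empty_or_nonempty {m | ∃ K : List R3, IsKnot K ∧ crossingNumber K = k ∧ nKnot K = m}
      with he | hne
    · rw [he]; simp
    · apply csSup_le hne
      rintro m ⟨K, hK', hc, rfl⟩
      exact hK K hK' hc

end Pool.Agent.Results.MP_188a32_co.PolyIsotopy
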